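import Mathlib
import Pool.Agent.TH576.TAM.Top

/-!
# (TAM) implies that ccc first countable Čech-complete spaces are separable

The hypothesis `hTAM` is the statement (TAM) of the question.  The space `X` is Tychonoff
(`T35Space`), a `G_δ` subset of its Stone–Čech compactification, first countable, and every
family of pairwise disjoint nonempty open subsets of `X` is countable.  Then `X` is separable.
-/

set_option autoImplicit false

open Set TopologicalSpace

universe u

theorem Pool.Agent.Results.MP_4ebb14_gt.SeparableUnderTAM.result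
    (hTAM : ∀ (Y : Type u) [TopologicalSpace Y] [T2Space Y],
      (∀ U : Set (Set Y), (∀ A ∈ U, IsOpen A ∧ A.Nonempty) → U.PairwiseDisjoint id →
        U.Countable) →
      ∀ ξ : Set (Set Y), (∀ A ∈ ξ, IsOpen A ∧ A.Nonempty) → ¬ ξ.Countable →
        ∃ η ⊆ ξ, ¬ η.Countable ∧
          ∀ F : Finset (Set Y), (F : Set (Set Y)) ⊆ η → (⋂₀ (F : Set (Set Y))).Nonempty)
    (X : Type u) [TopologicalSpace X] [T35Space X] [FirstCountableTopology X]
    (hCech : IsGδ (Set.range (stoneCechUnit : X → StoneCech X)))
    (hccc : ∀ U : Set (Set X), (∀ A ∈ U, IsOpen A ∧ A.Nonempty) → U.PairwiseDisjoint id →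
      U.Countable) :
    SeparableSpace X :=
  Pool.Agent.TH576.TAM.separable_aux (fun Y _ _ h ξ h1 h2 => hTAM Y h ξ h1 h2)
    (stoneCechUnit : X → StoneCech X) isEmbedding_stoneCechUnit hCech hccc
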